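import Mathlib
import Pool.Agent.V1190.CI.Defs
import Pool.Agent.V1190.CI.Fin

/-!
The unitary equivalence class of the C*-correspondence `X_(A,α)` of a multivariable C*-dynamical
system is not an invariant, for isometric isomorphism, of the operator algebras associated with the
system: there are a unital C*-algebra `A`, two systems `α`, `β` of two injective unital
*-endomorphisms of `A`, and operator algebras `S`, `T` (norm closed subalgebras of a C*-algebra `C`)
associated with `(A, α)` and with `(A, β)`, such that `S` and `T` are isometrically isomorphic (even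
conjugate by a *-automorphism of `C`), although `X_(A,α)` and `X_(A,β)` are not unitarily
equivalent.
-/

namespace Pool.Agent.Results.MP_4b5f87_an.NotInvariant

open Pool.Agent.V1190.CI

theorem result : ∃ (A : Type) (_ : CStarAlgebra A) (α β : Fin 2 → (A →⋆ₐ[ℂ] A))
    (C : Type) (_ : CStarAlgebra C) (S T : Subalgebra ℂ C),
    (∀ i, Function.Injective (α i)) ∧ (∀ i, Function.Injective (β i)) ∧
    Associated α S ∧ Associated β T ∧
    (∃ Φ : C ≃⋆ₐ[ℂ] C, ∀ z, z ∈ S ↔ Φ z ∈ T) ∧
    (∃ φ : S ≃ₐ[ℂ] T, ∀ x, ‖φ x‖ = ‖x‖) ∧
    ¬ UnitarilyEquivalent α β :=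
  main

end Pool.Agent.Results.MP_4b5f87_an.NotInvariant
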